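import Pool.Agent.W761.CB.Stms

/-!
# CB-PAR: Parseval on the cube
-/

set_option autoImplicit false

open MeasureTheory
open scoped ENNReal

namespace Pool.Agent.W803.CB

open Pool.Agent.W761.CB

noncomputable section

local instance instMS : MeasureSpace UnitAddCircle := ⟨AddCircle.haarAddCircle⟩

local instance instHaar : Measure.IsAddHaarMeasure (volume : Measure UnitAddCircle) :=
  inferInstanceAs (Measure.IsAddHaarMeasure AddCircle.haarAddCircle)

local instance instProb : IsProbabilityMeasure (volume : Measure UnitAddCircle) :=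
  inferInstanceAs (IsProbabilityMeasure AddCircle.haarAddCircle)

theorem bx_eq (d : Type) [Fintype d] :
    {x : d → ℝ | ∀ i, x i ∈ Set.Ioc ((fun _ => -(1 / 2) : d → ℝ) i)
      ((fun _ => -(1 / 2) : d → ℝ) i + 1)} = bx d := by
  ext x
  simp only [bx, Set.mem_ofPred_eq, Set.mem_pi, Set.mem_univ, true_implies]
  norm_num

theorem bx_meas (d : Type) [Fintype d] : MeasurableSet (bx d) :=
  MeasurableSet.univ_pi fun _ => measurableSet_Ioc

theorem mF_eq {d : Type} [Fintype d] (k : d → ℤ) (s : d → ℝ) :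
    UnitAddTorus.mFourier (-k) (fun i => (s i : UnitAddCircle)) = ek k s := by
  unfold UnitAddTorus.mFourier ek
  simp only [ContinuousMap.coe_mk, Pi.neg_apply, fourier_coe_apply]
  rw [← Complex.exp_sum]
  congr 1
  rw [Finset.mul_sum, ← Finset.sum_neg_distrib]
  refine Finset.sum_congr rfl fun j _ => ?_
  push_cast
  ring

theorem par : S_PAR := by
  intro d _ H hH hb
  obtain ⟨C, hC⟩ := hb
  set a : d → ℝ := fun _ => -(1 / 2) with ha
  set H0 : (d → ℝ) → ℂ := (bx d).indicator H with hH0
  have hH0m : Measurable H0 := hH.indicator (bx_meas d)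
  have hH0b : ∀ s, ‖H0 s‖ ≤ max C 0 := by
    intro s
    by_cases hs : s ∈ bx d
    · rw [hH0, Set.indicator_of_mem hs]
      exact (hC s hs).trans (le_max_left _ _)
    · rw [hH0, Set.indicator_of_notMem hs, norm_zero]
      exact le_max_right _ _
  set f : UnitAddTorus d → ℂ := fun x => H0 ((UnitAddTorus.measurableEquivPiIoc a x).1) with hf
  have hfm : Measurable f :=
    hH0m.comp (measurable_subtype_coe.comp (UnitAddTorus.measurableEquivPiIoc a).measurable)
  have hfb : ∀ x, ‖f x‖ ≤ max C 0 := fun x => hH0b _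
  have hfs : ∀ s ∈ bx d, f (fun i => (s i : UnitAddCircle)) = H s := by
    intro s hs
    have hs' : ∀ i, s i ∈ Set.Ioc (a i) (a i + 1) := by
      have := hs
      rw [← bx_eq d] at this
      exact this
    have h1 : (fun i => (s i : UnitAddCircle)) = (UnitAddTorus.measurableEquivPiIoc a).symm
        (⟨s, hs'⟩ : {x : d → ℝ // ∀ i, x i ∈ Set.Ioc (a i) (a i + 1)}) := rfl
    rw [hf]
    show H0 ((UnitAddTorus.measurableEquivPiIoc a (fun i => (s i : UnitAddCircle))).1) = H s
    rw [h1, MeasurableEquiv.apply_symm_apply]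
    show H0 s = H s
    rw [hH0, Set.indicator_of_mem hs]
  have hmem : MemLp f 2 (volume : Measure (UnitAddTorus d)) :=
    MemLp.of_bound hfm.aestronglyMeasurable (max C 0) (Filter.Eventually.of_forall hfb)
  have hae := hmem.coeFn_toLp
  have hP := UnitAddTorus.hasSum_sq_mFourierCoeff (hmem.toLp f)
  have hcoef : ∀ k : d → ℤ, UnitAddTorus.mFourierCoeff (hmem.toLp f) k =
      ∫ s in bx d, ek k s * H s := by
    intro k
    have e1 : UnitAddTorus.mFourierCoeff (hmem.toLp f) k = UnitAddTorus.mFourierCoeff f k := by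
      refine integral_congr_ae ?_
      filter_upwards [hae] with x hx
      rw [hx]
    rw [e1, UnitAddTorus.mFourierCoeff_eq_integral f k a, bx_eq d]
    refine setIntegral_congr_fun (bx_meas d) fun s hs => ?_
    rw [hfs s hs, mF_eq, smul_eq_mul]
  have hint : ∫ t, ‖(hmem.toLp f : UnitAddTorus d → ℂ) t‖ ^ 2 = ∫ t, ‖f t‖ ^ 2 := by
    refine integral_congr_ae ?_
    filter_upwards [hae] with x hx
    rw [hx]
  rw [hint] at hP
  simp only [hcoef] at hP
  have hI : Integrable (fun t => ‖f t‖ ^ 2) (volume : Measure (UnitAddTorus d)) :=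
    hmem.integrable_norm_pow (by norm_num)
  have hL : ∫⁻ t : UnitAddTorus d, ‖f t‖ₑ ^ 2 = ∫⁻ s in bx d, ‖H s‖ₑ ^ 2 := by
    rw [UnitAddTorus.lintegral_preimage (fun t => ‖f t‖ₑ ^ 2) a, bx_eq d]
    refine setLIntegral_congr_fun (bx_meas d) fun s hs => ?_
    rw [hfs s hs]
  have hen : ∀ z : ℂ, ‖z‖ₑ ^ 2 = ENNReal.ofReal (‖z‖ ^ 2) := by
    intro z
    rw [← ofReal_norm, ← ENNReal.ofReal_pow (norm_nonneg _)]
  rw [← hL]
  simp only [hen]
  rw [← ENNReal.ofReal_tsum_of_nonneg (fun k => by positivity) hP.summable, hP.tsum_eq,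
    ofReal_integral_eq_lintegral_ofReal hI (Filter.Eventually.of_forall fun t => by positivity)]

end

end Pool.Agent.W803.CB
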