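import Pool.Agent.W761.CB.Stms
import Pool.Agent.W975.CB.Ms
import Pool.Agent.W366.CB.Lam
import Pool.Agent.W417.CB.Ebc

/-!
# CB-W3: the Weyl operators are linear and shift the annihilation operators
-/

set_option autoImplicit false

open MeasureTheory
open scoped ENNReal

namespace Pool.Agent.W803.CB

open Pool.Agent.W761.CB

noncomputable section

theorem hMS : S_MS := Pool.Agent.W975.CB.proof_ms
theorem hLAM : S_LAM := Pool.Agent.W366.CB.proof_lam hMS
theorem hEBC : S_EBC := Pool.Agent.W417.CB.proof_ebc hMS hLAM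

variable {X : Type} [MeasurableSpace X] (ν : Measure X) [IsFiniteMeasure ν]

/-- the product is exponentially bounded -/
theorem eb_prod (v : X → ℂ) (hv : Measurable v) (K : ℝ) (hK : ∀ x, ‖v x‖ ≤ K) :
    EB (fun S : Multiset X => (S.map v).prod) := by
  refine ⟨?_, 1, max K 1, zero_le_one, le_max_right _ _, fun S => ?_⟩
  · have h3 := (hMS X).2.2.1 Unit (fun _ => v) (hv.comp measurable_snd)
    exact h3.comp (measurable_prodMk_left (x := ()))
  · rw [one_mul]
    exact Pool.Agent.W366.CB.norm_prod v (max K 1) (le_trans zero_le_one (le_max_right _ _))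
      (fun x => (hK x).trans (le_max_left _ _)) S

include ν in
theorem eb_add (S : Multiset X) : ∀ F : Multiset X → ℂ, EB F → EB (fun T => F (S + T)) := by
  induction S using Multiset.induction_on with
  | empty => intro F hF; simpa using hF
  | cons x S ih =>
    intro F hF
    have h1 : EB (an x F) := (hEBC X ν F F hF hF).1 x
    have h2 := ih (an x F) h1
    have e : (fun T => F (x ::ₘ S + T)) = fun T => an x F (S + T) := by
      funext T
      rw [Multiset.cons_add]
      rfl
    rw [e]
    exact h2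

theorem qq_int (v : X → ℂ) (hv : Measurable v) (K : ℝ) (hK : ∀ x, ‖v x‖ ≤ K)
    (F : Multiset X → ℂ) (hF : EB F) (S : Multiset X) :
    Integrable (fun γ => ((ms γ).map v).prod * F (S + ms γ)) (lam ν) := by
  have h := (hLAM X ν).2.2.2.1 (fun S : Multiset X => (S.map v).prod) (fun T => F (S + T))
    (eb_prod v hv K hK) (eb_add ν S F hF)
  exact h

theorem qq_lin (v : X → ℂ) (hv : Measurable v) (K : ℝ) (hK : ∀ x, ‖v x‖ ≤ K)
    (F G : Multiset X → ℂ) (hF : EB F) (hG : EB G) (a b : ℂ) :
    QQ ν v (fun S => a * F S + b * G S) = fun S => a * QQ ν v F S + b * QQ ν v G S := by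
  funext S
  unfold QQ
  rw [← integral_const_mul, ← integral_const_mul, ← integral_add
    ((qq_int ν v hv K hK F hF S).const_mul a) ((qq_int ν v hv K hK G hG S).const_mul b)]
  refine integral_congr_ae (Filter.Eventually.of_forall fun γ => ?_)
  simp only []
  ring

omit [MeasurableSpace X] in
theorem pp_lin (w : X → ℂ) (F G : Multiset X → ℂ) (a b : ℂ) (S : Multiset X) :
    PP w (fun S => a * F S + b * G S) S = a * PP w F S + b * PP w G S := by
  unfold PP
  rw [← Multiset.sum_map_mul_left, ← Multiset.sum_map_mul_left, ← Multiset.sum_map_add]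
  refine congrArg _ (Multiset.map_congr rfl fun p _ => ?_)
  ring

omit [MeasurableSpace X] in
theorem pp_an (w : X → ℂ) (G : Multiset X → ℂ) (x : X) (S : Multiset X) :
    PP w G (x ::ₘ S) = PP w (an x G) S + w x * PP w G S := by
  unfold PP
  rw [Multiset.antidiagonal_cons, Multiset.map_add, Multiset.sum_add, Multiset.map_map,
    Multiset.map_map, ← Multiset.sum_map_mul_left]
  congr 2
  refine Multiset.map_congr rfl fun p _ => ?_
  simp only [Function.comp_apply, Prod.map_fst, Prod.map_snd, id, Multiset.map_cons,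
    Multiset.prod_cons]
  ring

theorem dd_lin (w : X → ℂ) (hw : Measurable w) (K : ℝ) (hK : ∀ x, ‖w x‖ ≤ K)
    (F G : Multiset X → ℂ) (hF : EB F) (hG : EB G) (a b : ℂ) :
    DD ν w (fun S => a * F S + b * G S) = fun S => a * DD ν w F S + b * DD ν w G S := by
  funext S
  unfold DD
  rw [qq_lin ν (fun x => -(starRingEnd ℂ) (w x)) (by fun_prop) K
    (fun x => by rw [norm_neg, RCLike.norm_conj]; exact hK x) F G hF hG a b, pp_lin]
  ring

omit [IsFiniteMeasure ν] in
theorem qq_an (v : X → ℂ) (F : Multiset X → ℂ) (x : X) :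
    an x (QQ ν v F) = QQ ν v (an x F) := by
  funext S
  unfold an QQ
  simp only [Multiset.cons_add]

theorem dd_an (w : X → ℂ) (F : Multiset X → ℂ) (x : X) (S : Multiset X) :
    DD ν w F (x ::ₘ S) = DD ν w (an x F) S + w x * DD ν w F S := by
  unfold DD
  rw [pp_an, qq_an]
  ring

/-- the integral of a sum over a multiset -/
theorem int_msum {α ι : Type} [MeasurableSpace α] (μ : Measure α) (T : Multiset ι)
    (f : ι → α → ℂ) (h : ∀ p, Integrable (f p) μ) :
    Integrable (fun x => (T.map fun p => f p x).sum) μ ∧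
      ∫ x, (T.map fun p => f p x).sum ∂μ = (T.map fun p => ∫ x, f p x ∂μ).sum := by
  induction T using Multiset.induction_on with
  | empty => simp
  | cons p T ih =>
    simp only [Multiset.map_cons, Multiset.sum_cons]
    refine ⟨(h p).add ih.1, ?_⟩
    rw [integral_add (h p) ih.1, ih.2]

/-- Fubini for one part -/
theorem fub (v : X → ℂ) (hv : Measurable v) (K : ℝ) (hK : ∀ x, ‖v x‖ ≤ K)
    (F : Multiset X → ℂ) (hF : EB F) (g : X → ℝ) (hg : Measurable g) (C : ℝ)
    (hC : ∀ x, |g x| ≤ C) (B : Multiset X) :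
    Integrable (fun x => (g x : ℂ) * QQ ν v (an x F) B) ν ∧
      ∫ x, (g x : ℂ) * QQ ν v (an x F) B ∂ν = QQ ν v (ag ν g F) B := by
  have : IsFiniteMeasure (lam ν) := (hLAM X ν).2.1
  have hF' := eb_add ν B F hF
  have hE := hEBC X ν _ _ hF' hF'
  obtain ⟨D, c, hD, hc, hb⟩ := hE.2.2.2.2.2.2.2.1
  have hm := hE.2.2.2.2.1
  have hP := eb_prod v hv K hK
  obtain ⟨D', c', hD', hc', hb'⟩ := hP.bdd
  have hCn : 0 ≤ max C 0 := le_max_right _ _
  -- the integrand
  have hJ : Integrable (fun p : X × Cf X => (g p.1 : ℂ) *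
      (((ms p.2).map v).prod * F (p.1 ::ₘ (B + ms p.2)))) (ν.prod (lam ν)) := by
    have hdom := (Pool.Agent.W366.CB.int_card ν (max C 0 * (D' * D)) (c' * c)
      (by positivity) (by positivity)).comp_snd ν
    refine hdom.mono' ?_ (Filter.Eventually.of_forall fun p => ?_)
    · have h1 : Measurable fun p : X × Cf X => (g p.1 : ℂ) :=
        Complex.measurable_ofReal.comp (hg.comp measurable_fst)
      have h2 : Measurable fun p : X × Cf X => ((ms p.2).map v).prod :=
        hP.meas.comp measurable_snd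
      have h3 : Measurable fun p : X × Cf X => F (p.1 ::ₘ (B + ms p.2)) := by
        have e : (fun p : X × Cf X => F (p.1 ::ₘ (B + ms p.2))) =
            fun p : X × Cf X => (fun T => F (B + T)) (p.1 ::ₘ ms p.2) := by
          funext p
          simp only [Multiset.add_cons]
        rw [e]
        exact hm
      exact (h1.mul (h2.mul h3)).aestronglyMeasurable
    · have a1 : ‖(g p.1 : ℂ)‖ ≤ max C 0 := by
        rw [Complex.norm_real, Real.norm_eq_abs]
        exact (hC p.1).trans (le_max_left _ _)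
      have a2 := hb' (ms p.2)
      have a3 : ‖F (p.1 ::ₘ (B + ms p.2))‖ ≤ D * c ^ Multiset.card (ms p.2) := by
        have := hb p.1 (ms p.2)
        rwa [Multiset.add_cons] at this
      rw [norm_mul, norm_mul]
      calc _ ≤ max C 0 * ((D' * c' ^ Multiset.card (ms p.2)) *
            (D * c ^ Multiset.card (ms p.2))) := by
            refine mul_le_mul a1 (mul_le_mul a2 a3 (norm_nonneg _) (by positivity))
              (by positivity) hCn
        _ = max C 0 * (D' * D) * (c' * c) ^ Multiset.card (ms p.2) := by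
            rw [mul_pow]; ring
  have e1 : ∀ x, (g x : ℂ) * QQ ν v (an x F) B =
      ∫ γ, (g x : ℂ) * (((ms γ).map v).prod * F (x ::ₘ (B + ms γ))) ∂(lam ν) := by
    intro x
    rw [integral_const_mul]
    rfl
  simp only [e1]
  refine ⟨hJ.integral_prod_left, ?_⟩
  rw [integral_integral_swap hJ]
  unfold QQ ag
  refine integral_congr_ae (Filter.Eventually.of_forall fun γ => ?_)
  simp only []
  rw [← integral_const_mul]
  refine integral_congr_ae (Filter.Eventually.of_forall fun x => ?_)
  simp only []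
  ring

theorem dd_ag0 (w : X → ℂ) (hw : Measurable w) (K : ℝ) (hK : ∀ x, ‖w x‖ ≤ K)
    (F : Multiset X → ℂ) (hF : EB F) (g : X → ℝ) (hg : Measurable g) (C : ℝ)
    (hC : ∀ x, |g x| ≤ C) (S : Multiset X) :
    Integrable (fun x => (g x : ℂ) * DD ν w (an x F) S) ν ∧
      ∫ x, (g x : ℂ) * DD ν w (an x F) S ∂ν = DD ν w (ag ν g F) S := by
  set v : X → ℂ := fun x => -(starRingEnd ℂ) (w x) with hvdef
  have hv : Measurable v := by
    rw [hvdef]; fun_prop
  have hvK : ∀ x, ‖v x‖ ≤ K := fun x => by
    rw [hvdef]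
    show ‖-(starRingEnd ℂ) (w x)‖ ≤ K
    rw [norm_neg, RCLike.norm_conj]; exact hK x
  set e : ℂ := Complex.exp (-((∫ x, ‖w x‖ ^ 2 ∂ν : ℝ) : ℂ) / 2) with he
  have hfub := fun B => fub ν v hv K hvK F hF g hg C hC B
  have hsum := int_msum ν S.antidiagonal
    (fun p x => e * ((p.1.map w).prod * ((g x : ℂ) * QQ ν v (an x F) p.2)))
    (fun p => (((hfub p.2).1).const_mul _).const_mul _)
  have e1 : ∀ x, (g x : ℂ) * DD ν w (an x F) S =
      (S.antidiagonal.map fun p => e * ((p.1.map w).prod *
        ((g x : ℂ) * QQ ν v (an x F) p.2))).sum := by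
    intro x
    rw [Multiset.sum_map_mul_left]
    unfold DD PP
    rw [← he, mul_left_comm, ← Multiset.sum_map_mul_left]
    congr 2
    refine Multiset.map_congr rfl fun p _ => ?_
    ring
  simp only [e1]
  refine ⟨hsum.1, ?_⟩
  rw [hsum.2]
  unfold DD PP
  rw [← he, ← Multiset.sum_map_mul_left]
  congr 1
  refine Multiset.map_congr rfl fun p _ => ?_
  rw [integral_const_mul, integral_const_mul, (hfub p.2).2]

theorem w3' : S_W3 := by
  intro X _ ν _ w F G hw hwK hF hG
  obtain ⟨K, hK⟩ := hwK
  refine ⟨fun a b => dd_lin ν w hw K hK F G hF hG a b, fun x => ?_, fun g hg hgC => ?_⟩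
  · have hx : EB (an x F) := (hEBC X ν F F hF hF).1 x
    have h := dd_lin ν w hw K hK (an x F) F hx hF 1 (w x)
    have e : (fun S => F (x ::ₘ S) + w x * F S) = fun S => 1 * an x F S + w x * F S := by
      funext S
      rw [one_mul]
      rfl
    rw [e, h]
    funext S
    rw [one_mul]
    exact dd_an ν w F x S
  · obtain ⟨C, hC⟩ := hgC
    have hagF : EB (ag ν g F) := (hEBC X ν F F hF hF).2.2.2.1 g hg ⟨C, hC⟩
    have h := dd_lin ν w hw K hK (ag ν g F) F hagF hF 1 (∫ x, (g x : ℂ) * w x ∂ν)
    have e : (fun S => ag ν g F S + (∫ x, (g x : ℂ) * w x ∂ν) * F S) =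
        fun S => 1 * ag ν g F S + (∫ x, (g x : ℂ) * w x ∂ν) * F S := by
      funext S
      rw [one_mul]
    rw [e, h]
    funext S
    rw [one_mul]
    obtain ⟨i1, i2⟩ := dd_ag0 ν w hw K hK F hF g hg C hC S
    have hgw : Integrable (fun x => (g x : ℂ) * w x) ν := by
      refine Integrable.of_bound ?_ (C * K) (Filter.Eventually.of_forall fun x => ?_)
      · exact ((Complex.measurable_ofReal.comp hg).mul hw).aestronglyMeasurable
      · rw [norm_mul, Complex.norm_real, Real.norm_eq_abs]
        exact mul_le_mul (hC x) (hK x) (norm_nonneg _) ((abs_nonneg _).trans (hC x))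
    show ∫ x, (g x : ℂ) * DD ν w F (x ::ₘ S) ∂ν = _
    rw [← i2, ← integral_mul_const, ← integral_add i1 (hgw.mul_const _)]
    refine integral_congr_ae (Filter.Eventually.of_forall fun x => ?_)
    simp only []
    rw [dd_an]
    ring

theorem w3 (_ : S_W1) : S_W3 := w3'

end

end Pool.Agent.W803.CB
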